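import Pool.Agent.R130.PirconC

/-!
# Every pircon is an induced pircon of a zircon (MP_d57cd0_co, Q1)

All definitions (`IsSPM`, `IsSM`, `IsPircon`, `IsZircon`, `IsRank`, `induced`,
`IsInducedPircon`) are in `Pool.Agent.R130.PirconA`.
-/

open Set
open Pool.Agent.R130.Pircon

namespace Pool.Agent.Results.MP_d57cd0_co.EveryPirconInduced

universe u

theorem transport {Q Q' : Type*} [PartialOrder Q] [OrderTop Q] [PartialOrder Q'] [OrderTop Q']
    (e : Q ≃o Q') {M : Q → Q} {M' : Q' → Q'} (h : IsSPM M)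
    (hM : ∀ x, M' (e x) = e (M x)) : IsSPM M' := by
  refine ⟨?_, ?_, ?_, ?_⟩
  · intro y
    obtain ⟨x, rfl⟩ := e.surjective y
    rw [hM, hM, h.invol]
  · rw [← e.map_top, hM]
    exact (apply_covBy_apply_iff e).2 h.top
  · intro y
    obtain ⟨x, rfl⟩ := e.surjective y
    rw [hM]
    rcases h.near x with h1 | h1 | h1
    · exact Or.inl ((apply_covBy_apply_iff e).2 h1)
    · exact Or.inr (Or.inl (congrArg e h1))
    · exact Or.inr (Or.inr ((apply_covBy_apply_iff e).2 h1))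
  · intro y y' hc hne
    obtain ⟨x, rfl⟩ := e.surjective y
    obtain ⟨x', rfl⟩ := e.surjective y'
    rw [hM] at hne ⊢
    rw [hM]
    exact e.lt_iff_lt.2 (h.mono x x' ((apply_covBy_apply_iff e).1 hc)
      (fun h' => hne (congrArg e h')))

/-- Every pircon `P` is an induced pircon of some zircon `Z`. -/
theorem result (P : Type u) [PartialOrder P] (hP : IsPircon P) :
    ∃ (Z : Type u) (_ : PartialOrder Z) (rk : Z → ℕ) (M : ∀ z : Z, Set.Iic z → Set.Iic z)
      (S : Set Z),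
      IsZircon Z ∧ IsRank rk ∧ (∀ z : Z, ¬ IsMin z → IsSM (M z)) ∧
      IsInducedPircon rk M S ∧ Nonempty (P ≃o S) := by
  classical
  obtain ⟨r, hr⟩ := exists_rank hP
  have hR : Ranked r := ⟨finite_Iic hP, hr⟩
  have hN : ∀ x : P, ∃ M : P → P, ¬ IsMin x → SPM x M := by
    intro x
    by_cases hx : IsMin x
    · exact ⟨id, fun h => absurd hx h⟩
    · obtain ⟨M, hM⟩ := exists_spm hP x hx
      exact ⟨M, fun _ => hM⟩
  choose N hN using hN
  let f : Dbl P → Dbl P → Dbl P := fun z => match z with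
    | Dbl.a p => Dbl.lift (N p)
    | Dbl.s _ => Dbl.tog
  have hmin : ∀ p : P, IsMin p → IsMin (Dbl.a p) := by
    rintro p hp (y | y) hy
    · exact hp hy
    · have h1 : y < p := Ball.lt hy
      exact absurd (hp h1.le) h1.not_ge
  have hmin' : ∀ p : P, ¬ IsMin (Dbl.a p) → ¬ IsMin p := fun p h h' => h (hmin p h')
  have hf : ∀ z : Dbl P, ¬ IsMin z → SPM z (f z) := by
    rintro (p | p) hz
    · exact Dbl.spm_lift hR (hN p (hmin' p hz))
    · exact Dbl.spm_tog hR p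
  have hf' : ∀ z A : Dbl P, f z A ≠ A := by
    rintro (p | p) A
    · exact Dbl.lift_ne (p := p) A
    · exact Dbl.tog_ne A
  let M : ∀ z : Dbl P, Set.Iic z → Set.Iic z := fun z =>
    if h : ¬ IsMin z then fun x => ⟨f z x, (hf z h).maps x x.2⟩ else id
  have hM : ∀ z, (h : ¬ IsMin z) → M z = fun x => ⟨f z x, (hf z h).maps x x.2⟩ := by
    intro z h
    simp only [M, dif_pos h]
  have hSM : ∀ z : Dbl P, ¬ IsMin z → IsSM (M z) := by
    intro z h
    rw [hM z h]
    refine ⟨(hf z h).isSPM, ?_⟩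
    intro x hx
    exact hf' z x (congrArg Subtype.val hx)
  let e : P ≃o (Set.range (Dbl.a : P → Dbl P)) :=
    RelIso.ofSurjective (OrderEmbedding.ofMapLEIff
      (fun x : P => (⟨Dbl.a x, x, rfl⟩ : Set.range (Dbl.a : P → Dbl P))) (fun x y => Iff.rfl))
      (by rintro ⟨_, x, rfl⟩; exact ⟨x, rfl⟩)
  have he : ∀ x, e x = ⟨Dbl.a x, x, rfl⟩ := fun x => rfl
  refine ⟨Dbl P, inferInstance, Dbl.rk r, M, Set.range Dbl.a, ?_, Dbl.rank_rk hR, hSM, ⟨?_, ?_⟩,
    ⟨e⟩⟩
  · intro z hz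
    exact ⟨Dbl.finite_Iic hR z, M z, hSM z hz⟩
  · rintro ⟨_, p, rfl⟩ hp
    have hp0 : ¬ IsMin p := by
      intro h
      apply hp
      rintro ⟨_, y, rfl⟩ hy
      exact h (show y ≤ p from hy)
    have hap : ¬ IsMin (Dbl.a p) := by
      intro h
      apply hp0
      intro y hy
      exact h (show Dbl.a y ≤ Dbl.a p from hy)
    have h1 := (hN p hp0).isSPM
    let e' : Set.Iic p ≃o Set.Iic (⟨Dbl.a p, p, rfl⟩ : Set.range (Dbl.a : P → Dbl P)) :=
      RelIso.ofSurjective (OrderEmbedding.ofMapLEIff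
        (fun x : Set.Iic p => (⟨⟨Dbl.a x.1, x.1, rfl⟩, x.2⟩ :
          Set.Iic (⟨Dbl.a p, p, rfl⟩ : Set.range (Dbl.a : P → Dbl P)))) (fun x y => Iff.rfl))
        (by rintro ⟨⟨_, x, rfl⟩, hx⟩; exact ⟨⟨x, hx⟩, rfl⟩)
    have he' : ∀ x, e' x = ⟨⟨Dbl.a x.1, x.1, rfl⟩, x.2⟩ := fun x => rfl
    refine transport e' h1 ?_
    intro x
    have hMx : M (Dbl.a p) = fun x => ⟨Dbl.lift (N p) x, (hf (Dbl.a p) hap).maps x x.2⟩ :=
      hM (Dbl.a p) hap
    unfold induced
    simp only [he', hMx]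
    by_cases hfx : N p x.1 = x.1
    · have h2 : Dbl.lift (N p) (Dbl.a x.1) = Dbl.s x.1 := Dbl.lift_a_fix hfx
      rw [dif_neg]
      · apply Subtype.ext
        apply Subtype.ext
        show Dbl.a x.1 = Dbl.a (N p x.1)
        rw [hfx]
      · rw [h2]
        rintro ⟨y, hy⟩
        cases hy
    · have h2 : Dbl.lift (N p) (Dbl.a x.1) = Dbl.a (N p x.1) := Dbl.lift_a_ne hfx
      rw [dif_pos]
      · apply Subtype.ext
        apply Subtype.ext
        exact h2
      · rw [h2]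
        exact ⟨_, rfl⟩
  · constructor
    · rintro ⟨_, x, rfl⟩ hx
      refine hr.1 x ?_
      intro y hy
      have h1 : e y ≤ e x := e.le_iff_le.2 hy
      exact e.le_iff_le.1 (hx h1)
    · rintro ⟨_, x, rfl⟩ ⟨_, y, rfl⟩ hc
      have h1 : e x ⋖ e y := hc
      exact hr.2 x y ((apply_covBy_apply_iff e).1 h1)

end Pool.Agent.Results.MP_d57cd0_co.EveryPirconInduced
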